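import Mathlib
import Pool.Agent.Lib.P605199.Meas2
import Pool.Agent.Lib.P605199.Erg

/-!
# A weakly mixing infinite measure-preserving isometry

There is an invertible measure-preserving transformation `T` of a standard `σ`-finite non-atomic
infinite measure space which is weakly mixing and which is an isometry for an admissible metric.
Hence weak mixing does not imply measurable sensitivity.
-/

open MeasureTheory
open scoped ENNReal

namespace Pool.Agent.Results.MP_605199_an.WeakMixNotSensitive

universe u

/-- `T` is weakly mixing: `T × S` is ergodic for every ergodic probability-preserving `S`. -/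
def WeaklyMixing {X : Type} [MeasurableSpace X] (μ : Measure X) (T : X → X) : Prop :=
  ∀ (Z : Type u) [MeasurableSpace Z] (ρ : Measure Z) [IsProbabilityMeasure ρ] (S : Z → Z),
    Ergodic S ρ → Ergodic (Prod.map T S) (μ.prod ρ)

/-- `d` is a metric on `X`. -/
structure IsMetric {X : Type} (d : X → X → ℝ) : Prop where
  eq_zero_iff : ∀ x y, d x y = 0 ↔ x = y
  symm : ∀ x y, d x y = d y x
  triangle : ∀ x y z, d x z ≤ d x y + d y z

/-- `d` is an admissible metric: open balls are measurable and have positive measure. -/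
structure Admissible {X : Type} [MeasurableSpace X] (μ : Measure X) (d : X → X → ℝ) : Prop where
  isMetric : IsMetric d
  measurable_ball : ∀ x ε, 0 < ε → MeasurableSet {z | d x z < ε}
  ball_pos : ∀ x ε, 0 < ε → 0 < μ {z | d x z < ε}

/-- The set `D_n^δ(x, ε)` of the points of the `ε`-ball about `x` which are `δ`-separated from `x`
at time `n`. -/
def D {X : Type} (T : X → X) (d : X → X → ℝ) (n : ℕ) (δ : ℝ) (x : X) (ε : ℝ) : Set X :=
  {z | d x z < ε ∧ δ < d (T^[n] z) (T^[n] x)}

/-- `T` is measurably sensitive with respect to `d`. -/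
def MeasurablySensitive {X : Type} [MeasurableSpace X] (μ : Measure X) (T : X → X)
    (d : X → X → ℝ) : Prop :=
  ∃ δ : ℝ, 0 < δ ∧ ∀ᵐ x ∂μ, ∀ ε : ℝ, 0 < ε → ∃ n : ℕ, 0 < μ (D T d n δ x ε)

/-- There is a weakly mixing invertible measure-preserving transformation of a standard
`σ`-finite non-atomic infinite measure space which is an isometry of an admissible metric,
and so is not measurably sensitive with respect to that metric. -/
theorem result :
    ∃ (X : Type) (_ : MeasurableSpace X) (_ : StandardBorelSpace X) (μ : Measure X)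
      (_ : SigmaFinite μ) (T : X ≃ᵐ X) (d : X → X → ℝ),
      (∀ x, μ {x} = 0) ∧
      μ Set.univ = ∞ ∧
      MeasurePreserving T μ μ ∧
      WeaklyMixing.{u} μ T ∧
      Admissible μ d ∧
      (∀ x y, d (T x) (T y) = d x y) ∧
      (∀ δ : ℝ, 0 < δ → ∀ x, ∃ ε : ℝ, 0 < ε ∧ ∀ n : ℕ, μ (D T d n δ x ε) = 0) ∧
      ¬ MeasurablySensitive μ T d := by
  let T : Lib.P605199.Gx ≃ᵐ Lib.P605199.Gx :=
    MeasurableEquiv.addLeft (Lib.P605199.zi 1)
  have hT : (T : Lib.P605199.Gx → Lib.P605199.Gx) = Lib.P605199.Tz := rfl
  have hiso : ∀ x y : Lib.P605199.Gx, dist (T x) (T y) = dist x y := by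
    intro x y
    rw [hT]
    unfold Lib.P605199.Tz
    exact dist_add_left _ _ _
  have hisoN : ∀ (n : ℕ) (x y : Lib.P605199.Gx), dist (T^[n] x) (T^[n] y) = dist x y := by
    intro n
    induction n with
    | zero => intro x y; rfl
    | succ n ih =>
      intro x y
      rw [Function.iterate_succ_apply, Function.iterate_succ_apply, ih, hiso]
  have hD : ∀ (δ : ℝ) (n : ℕ) (x : Lib.P605199.Gx), D T dist n δ x δ = ∅ := by
    intro δ n x
    rw [Set.eq_empty_iff_forall_notMem]
    rintro z ⟨h1, h2⟩
    rw [hisoN, dist_comm] at h2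
    exact absurd h1 (not_lt.mpr h2.le)
  refine ⟨Lib.P605199.Gx, inferInstance, inferInstance, Lib.P605199.mu, inferInstance, T, dist,
    fun x => measure_singleton x, Lib.P605199.mu_univ, ?_, ?_, ?_, hiso, ?_, ?_⟩
  · rw [hT]
    exact Lib.P605199.mp_Tz
  · intro Z _ ρ _ S hS
    rw [hT]
    exact Lib.P605199.prod_ergodic ρ inferInstance hS
  · refine ⟨⟨fun x y => dist_eq_zero, dist_comm, dist_triangle⟩, ?_, ?_⟩
    · intro x ε _
      have e : {z | dist x z < ε} = Metric.ball x ε := by
        ext z
        simp only [Set.mem_ofPred_eq, Metric.mem_ball]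
        rw [dist_comm]
      rw [e]
      exact Metric.isOpen_ball.measurableSet
    · intro x ε hε
      have e : {z | dist x z < ε} = Metric.ball x ε := by
        ext z
        simp only [Set.mem_ofPred_eq, Metric.mem_ball]
        rw [dist_comm]
      rw [e]
      exact Lib.P605199.mu_ball_pos x hε
  · intro δ hδ x
    refine ⟨δ, hδ, fun n => ?_⟩
    rw [hD]
    exact measure_empty
  · rintro ⟨δ, hδ, h⟩
    have hne : (ae Lib.P605199.mu).NeBot := by
      rw [ae_neBot]
      intro h0
      have h1 := Lib.P605199.mu_univ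
      rw [h0] at h1
      simp at h1
    obtain ⟨x, hx⟩ := h.exists
    obtain ⟨n, hn⟩ := hx δ hδ
    rw [hD] at hn
    simp at hn

end Pool.Agent.Results.MP_605199_an.WeakMixNotSensitive
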